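import Pool.Agent.H20.RCC.Stmts

/-!
# Board rcc (MP_a315fd_nt), row SND: soundness of the column automaton
-/

set_option autoImplicit false

namespace Pool.RCC

namespace SNDaux

theorem zn_le {k : ℕ} (hk : k ≤ 8) : ∀ (H L : List ℕ), (∀ h ∈ H, h ≤ 9) → (∀ l ∈ L, l ≤ 9) →
    ∀ s ∈ zn k H L, s ≤ 18
  | [], [], _, _ => by intro s hs; simp [zn] at hs
  | h :: H, [], hH, hL => by
    intro s hs
    rw [zn, List.mem_cons] at hs
    rcases hs with rfl | hs
    · have := hH h (List.mem_cons_self ..)
      omega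
    · exact zn_le hk H [] (fun x hx => hH x (List.mem_cons_of_mem _ hx)) hL s hs
  | [], l :: L, hH, hL => by
    intro s hs
    rw [zn, List.mem_cons] at hs
    rcases hs with rfl | hs
    · have := hL l (List.mem_cons_self ..)
      omega
    · exact zn_le hk [] L hH (fun x hx => hL x (List.mem_cons_of_mem _ hx)) s hs
  | h :: H, l :: L, hH, hL => by
    intro s hs
    rw [zn, List.mem_cons] at hs
    rcases hs with rfl | hs
    · have := hH h (List.mem_cons_self ..)
      have := hL l (List.mem_cons_self ..)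
      omega
    · exact zn_le hk H L (fun x hx => hH x (List.mem_cons_of_mem _ hx))
        (fun x hx => hL x (List.mem_cons_of_mem _ hx)) s hs

theorem count_tail (h : ℕ) (T : List ℕ) :
    (fun d => (h :: T).count d - if d = h then 1 else 0) = fun d => T.count d := by
  funext d
  rw [List.count_cons]
  by_cases hd : h = d
  · simp [hd]
  · have : d ≠ h := fun e => hd e.symm
    simp [hd, this]

/-- one column -/
theorem stepc (hHIO : HIOStmt) (hLWO : LWOStmt) (hSAD : SADStmt) (hCDX : CDXStmt) (hENC : ENCStmt)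
    {k : ℕ} {I : List ℕ} (hk1 : 1 ≤ k) (hk8 : k ≤ 8) (hcl : ∀ X ∈ I, ∀ Y ∈ nxt k X, Y ∈ I)
    {H L H' L' : List ℕ} {h l : ℕ} (hHs : H.Pairwise (· ≥ ·)) (hLs : L.Pairwise (· ≤ ·))
    (hH9 : ∀ h ∈ H, k + 1 < h ∧ h ≤ 9) (hL9 : ∀ l ∈ L, 1 ≤ l ∧ l < k)
    (hH : H = h :: H' ∨ (H = [] ∧ H' = [] ∧ h = k + 1))
    (hL : L = l :: L' ∨ (L = [] ∧ L' = [] ∧ l = k)) (hne : ¬ (h = k + 1 ∧ l = k))
    {a c g' : ℕ} {f : ℕ → ℕ} (hM : Mt a (fun d => (H ++ L).count d)) (hc : c ≤ 1) (hg : g' ≤ 1)
    (hX : cd a (enc f) c ((h + l + g') / 10) ∈ I) :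
    ∃ a2 : ℕ, Mt a2 (fun d => (H' ++ L').count d) ∧
      cd a2 (enc (fun d => f d + (if d = (h + l + c) % 10 then 1 else 0) +
        (if d = (h + l + g') % 10 then 1 else 0))) ((h + l + c) / 10) g' ∈ I := by
  have hh : h ≤ 9 := by
    rcases hH with rfl | ⟨-, -, rfl⟩
    · exact (hH9 h (List.mem_cons_self ..)).2
    · omega
  have hl : l ≤ 8 := by
    rcases hL with rfl | ⟨-, -, rfl⟩
    · have := (hL9 l (List.mem_cons_self ..)).2
      omega
    · omega
  -- the high letter
  obtain ⟨x, hx, hx1, hx2⟩ : ∃ x ∈ hi k 9 a, x.1 = h ∧ Mt x.2 (fun d => (H' ++ L).count d) := by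
    have key := hHIO k a H (fun d => (H ++ L).count d) hk1 hk8 hHs hH9
      (fun d hd => by
        simp only [List.count_append]
        have : L.count d = 0 := by
          rw [List.count_eq_zero]
          intro hm
          have := hL9 d hm
          omega
        omega) hM
    rcases hH with rfl | ⟨rfl, rfl, rfl⟩
    · obtain ⟨x, hx, hx1, hx2⟩ := key.1 h H' rfl
      refine ⟨x, hx, hx1, ?_⟩
      rw [List.cons_append, count_tail] at hx2
      exact hx2
    · obtain ⟨x, hx, hx1, hx2⟩ := key.2 rfl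
      exact ⟨x, hx, hx1, hx2⟩
  have hH9' : ∀ h ∈ H', k + 1 < h := by
    rcases hH with rfl | ⟨rfl, rfl, rfl⟩
    · intro y hy
      exact (hH9 y (List.mem_cons_of_mem _ hy)).1
    · intro y hy
      simp at hy
  -- the low letter
  obtain ⟨y, hy, hy1, hy2⟩ : ∃ y ∈ lw k 8 0 x.2, y.1 = l ∧
      Mt y.2 (fun d => (H' ++ L').count d) := by
    have key := hLWO k x.2 L (fun d => (H' ++ L).count d) hk1 hk8 hLs hL9
      (fun d _ hd => by
        simp only [List.count_append]
        have : H'.count d = 0 := by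
          rw [List.count_eq_zero]
          intro hm
          have := hH9' d hm
          omega
        omega) hx2
    rcases hL with rfl | ⟨rfl, rfl, rfl⟩
    · obtain ⟨y, hy, hy1, hy2⟩ := key.1 l L' rfl
      refine ⟨y, hy, hy1, ?_⟩
      have e : (fun d => (H' ++ l :: L').count d - if d = l then 1 else 0) =
          fun d => (H' ++ L').count d := by
        rw [← count_tail l (H' ++ L')]
        funext d
        congr 1
        simp only [List.count_append, List.count_cons]
        ring
      rw [e] at hy2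
      exact hy2
    · obtain ⟨y, hy, hy1, hy2⟩ := key.2 rfl
      exact ⟨y, hy, hy1, hy2⟩
  refine ⟨y.2, hy2, ?_⟩
  have ha : a < 262144 := by
    have := hM.1
    norm_num at this
    exact this
  have hencf := (hENC f).1
  have hcgle : (h + l + g') / 10 ≤ 1 := by omega
  obtain ⟨c1, c2, c3, c4⟩ := hCDX a (enc f) c ((h + l + g') / 10) ha hencf hc hcgle
  apply hcl _ hX
  unfold nxt
  rw [List.mem_flatMap]
  refine ⟨x, by rw [c1]; exact hx, ?_⟩
  rw [List.mem_flatMap]
  refine ⟨y, hy, ?_⟩
  rw [hx1, hy1, if_neg hne, List.mem_append]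
  have hmem : cd y.2 (enc (fun d => f d + (if d = (h + l + c) % 10 then 1 else 0) +
        (if d = (h + l + g') % 10 then 1 else 0))) ((h + l + c) / 10) g' ∈
      nx1 (cd a (enc f) c ((h + l + g') / 10)) h y.2 l g' := by
    unfold nx1
    rw [c4, if_pos rfl, List.mem_singleton, c3, c2, hSAD _ _ (by omega), hSAD _ _ (by omega)]
  rcases Nat.le_one_iff_eq_zero_or_eq_one.mp hg with h0 | h1
  · left
    rw [h0] at hmem ⊢
    exact hmem
  · right
    rw [h1] at hmem ⊢
    exact hmem

end SNDaux

open SNDaux in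
theorem SND_thm (hHIO : HIOStmt) (hLWO : LWOStmt) (hSAD : SADStmt) (hCDX : CDXStmt)
    (hENC : ENCStmt) (hAR : ARStmt) : SNDStmt := by
  intro k I hk1 hk8 hcl H
  induction H with
  | nil =>
    intro L
    induction L with
    | nil =>
      intro _ _ _ _ a c g f hM hc hg hX
      refine ⟨a, ?_, ?_⟩
      · simpa using hM
      · simpa [zn, co, ad] using hX
    | cons l L ih =>
      intro hHs hLs hH9 hL9 a c g f hM hc hg hX
      have hzl : ∀ s ∈ (zn k [] L).reverse, s ≤ 18 := by
        intro s hs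
        rw [List.mem_reverse] at hs
        exact zn_le hk8 [] L (by simp) (fun x hx => by
          have := hL9 x (List.mem_cons_of_mem _ hx)
          omega) s hs
      have hg' := hAR.2.2.2 g _ hg hzl
      have hl := hL9 l (List.mem_cons_self ..)
      rw [zn, List.reverse_cons] at hX ⊢
      rw [(hAR.1 g (zn k [] L).reverse [k + 1 + l]).2] at hX
      rw [(hAR.1 g (zn k [] L).reverse [k + 1 + l]).1]
      obtain ⟨g', hgg⟩ : ∃ g', g' = co g (zn k [] L).reverse := ⟨_, rfl⟩
      rw [← hgg] at hX hg' ⊢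
      simp only [co, ad] at hX ⊢
      obtain ⟨a2, hM2, hX2⟩ := stepc hHIO hLWO hSAD hCDX hENC hk1 hk8 hcl (H := []) (L := l :: L)
        (H' := []) (L' := L) (h := k + 1) (l := l) hHs hLs hH9 hL9 (Or.inr ⟨rfl, rfl, rfl⟩)
        (Or.inl rfl) (by omega) hM hc hg' hX
      rw [hgg] at hX2
      obtain ⟨a', ha', hI⟩ := ih hHs (List.Pairwise.of_cons hLs) hH9
        (fun x hx => hL9 x (List.mem_cons_of_mem _ hx)) a2 _ g _ hM2 (by omega) hg hX2
      refine ⟨a', ha', ?_⟩
      convert hI using 2
      congr 1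
      funext d
      rw [List.count_cons, List.count_append, List.count_singleton, ← hgg]
      simp only [beq_iff_eq]
      have e1 : ((k + 1 + l + c) % 10 = d) = (d = (k + 1 + l + c) % 10) := propext eq_comm
      have e2 : ((k + 1 + l + g') % 10 = d) = (d = (k + 1 + l + g') % 10) := propext eq_comm
      simp only [e1, e2]
      ring
  | cons h H ihH =>
    intro L
    cases L with
    | nil =>
      intro hHs hLs hH9 hL9 a c g f hM hc hg hX
      have hzl : ∀ s ∈ (zn k H []).reverse, s ≤ 18 := by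
        intro s hs
        rw [List.mem_reverse] at hs
        exact zn_le hk8 H [] (fun x hx => (hH9 x (List.mem_cons_of_mem _ hx)).2) (by simp) s hs
      have hg' := hAR.2.2.2 g _ hg hzl
      have hh := hH9 h (List.mem_cons_self ..)
      rw [zn, List.reverse_cons] at hX ⊢
      rw [(hAR.1 g (zn k H []).reverse [h + k]).2] at hX
      rw [(hAR.1 g (zn k H []).reverse [h + k]).1]
      obtain ⟨g', hgg⟩ : ∃ g', g' = co g (zn k H []).reverse := ⟨_, rfl⟩
      rw [← hgg] at hX hg' ⊢
      simp only [co, ad] at hX ⊢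
      obtain ⟨a2, hM2, hX2⟩ := stepc hHIO hLWO hSAD hCDX hENC hk1 hk8 hcl (H := h :: H) (L := [])
        (H' := H) (L' := []) (h := h) (l := k) hHs hLs hH9 hL9 (Or.inl rfl)
        (Or.inr ⟨rfl, rfl, rfl⟩) (by omega) hM hc hg' hX
      rw [hgg] at hX2
      obtain ⟨a', ha', hI⟩ := ihH [] (List.Pairwise.of_cons hHs) hLs
        (fun x hx => hH9 x (List.mem_cons_of_mem _ hx)) hL9 a2 _ g _ hM2 (by omega) hg hX2
      refine ⟨a', ha', ?_⟩
      convert hI using 2
      congr 1
      funext d
      rw [List.count_cons, List.count_append, List.count_singleton, ← hgg]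
      simp only [beq_iff_eq]
      have e1 : ((h + k + c) % 10 = d) = (d = (h + k + c) % 10) := propext eq_comm
      have e2 : ((h + k + g') % 10 = d) = (d = (h + k + g') % 10) := propext eq_comm
      simp only [e1, e2]
      ring
    | cons l L =>
      intro hHs hLs hH9 hL9 a c g f hM hc hg hX
      have hzl : ∀ s ∈ (zn k H L).reverse, s ≤ 18 := by
        intro s hs
        rw [List.mem_reverse] at hs
        exact zn_le hk8 H L (fun x hx => (hH9 x (List.mem_cons_of_mem _ hx)).2) (fun x hx => by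
          have := hL9 x (List.mem_cons_of_mem _ hx)
          omega) s hs
      have hg' := hAR.2.2.2 g _ hg hzl
      have hh := hH9 h (List.mem_cons_self ..)
      have hl := hL9 l (List.mem_cons_self ..)
      rw [zn, List.reverse_cons] at hX ⊢
      rw [(hAR.1 g (zn k H L).reverse [h + l]).2] at hX
      rw [(hAR.1 g (zn k H L).reverse [h + l]).1]
      obtain ⟨g', hgg⟩ : ∃ g', g' = co g (zn k H L).reverse := ⟨_, rfl⟩
      rw [← hgg] at hX hg' ⊢
      simp only [co, ad] at hX ⊢
      obtain ⟨a2, hM2, hX2⟩ := stepc hHIO hLWO hSAD hCDX hENC hk1 hk8 hcl (H := h :: H)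
        (L := l :: L) (H' := H) (L' := L) (h := h) (l := l) hHs hLs hH9 hL9 (Or.inl rfl)
        (Or.inl rfl) (by omega) hM hc hg' hX
      rw [hgg] at hX2
      obtain ⟨a', ha', hI⟩ := ihH L (List.Pairwise.of_cons hHs) (List.Pairwise.of_cons hLs)
        (fun x hx => hH9 x (List.mem_cons_of_mem _ hx))
        (fun x hx => hL9 x (List.mem_cons_of_mem _ hx)) a2 _ g _ hM2 (by omega) hg hX2
      refine ⟨a', ha', ?_⟩
      convert hI using 2
      congr 1
      funext d
      rw [List.count_cons, List.count_append, List.count_singleton, ← hgg]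
      simp only [beq_iff_eq]
      have e1 : ((h + l + c) % 10 = d) = (d = (h + l + c) % 10) := propext eq_comm
      have e2 : ((h + l + g') % 10 = d) = (d = (h + l + g') % 10) := propext eq_comm
      simp only [e1, e2]
      ring

end Pool.RCC
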